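import Mathlib

/-!
# A lower bound for log-convex sequences of almost maximal growth (project ZL, part T5)
-/

set_option autoImplicit false

namespace Pool.Agent.N118.ZL

theorem seq_lower (α : ℕ → ℕ) (b m : ℕ) (hb : 1 ≤ b) (h1 : ∀ n, α (n + 1) ≤ b ^ 2 * α n)
    (h2 : ∀ n, α (n + 1) ^ 2 ≤ α n * α (n + 2))
    (h3 : ∀ n, b ^ (2 * n) ≤ (n + 1) ^ (b ^ 2) * α n) :
    ∃ c : ℝ, 0 < c ∧ ∀ n : ℕ, 2 ≤ n → ∀ k : ℕ, (k : ℝ) ≤ c * Real.log n →
      2 * b ^ (2 * (m * k)) * α n ≤ 2 * α (n + m * k) + α n := by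
  have hpos : ∀ n, 0 < α n := by
    intro n
    rcases Nat.eq_zero_or_pos (α n) with h | h
    · have h4 := h3 n
      rw [h, mul_zero] at h4
      have h5 : 0 < b ^ (2 * n) := Nat.pow_pos hb
      omega
    · exact h
  have hposR : ∀ n, (0 : ℝ) < α n := fun n => by exact_mod_cast hpos n
  set B : ℝ := (b : ℝ) ^ 2 with hB
  have hB1 : 1 ≤ B := by
    have : (1 : ℝ) ≤ b := by exact_mod_cast hb
    rw [hB]; exact one_le_pow₀ this
  have hB0 : 0 < B := by linarith
  have hl2 : 0 < Real.log 2 := Real.log_pos (by norm_num)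
  have hla : 0 ≤ Real.log (α 0) := Real.log_nonneg (by exact_mod_cast hpos 0)
  have hlB : 0 ≤ Real.log B := Real.log_nonneg hB1
  set K : ℝ := 2 * B + Real.log (α 0) / Real.log 2 with hK
  have hK0 : 0 < K := by positivity
  have hBK : Real.log B ≤ K := by
    have e1 : Real.log B ≤ B := (Real.log_le_sub_one_of_pos hB0).trans (by linarith)
    have e2 : 0 ≤ Real.log (α 0) / Real.log 2 := by positivity
    linarith
  -- the ratios
  let ρ : ℕ → ℝ := fun i => (α (i + 1) : ℝ) / α i
  have hρpos : ∀ i, 0 < ρ i := fun i => div_pos (hposR _) (hposR _)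
  have hρmono : Monotone ρ := by
    apply monotone_nat_of_le_succ
    intro i
    show (α (i + 1) : ℝ) / α i ≤ (α (i + 1 + 1) : ℝ) / α (i + 1)
    rw [div_le_div_iff₀ (hposR _) (hposR _)]
    have h4 : (α (i + 1) : ℝ) ^ 2 ≤ α i * α (i + 2) := by exact_mod_cast h2 i
    calc (α (i + 1) : ℝ) * α (i + 1) = (α (i + 1) : ℝ) ^ 2 := by ring
      _ ≤ α i * α (i + 2) := h4
      _ = _ := by ring
  have hρs : ∀ i, (α (i + 1) : ℝ) = ρ i * α i := fun i => by
    show (α (i + 1) : ℝ) = (α (i + 1) : ℝ) / α i * α i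
    rw [div_mul_cancel₀ _ (hposR i).ne']
  have hρle : ∀ i, ρ i ≤ B := by
    intro i
    show (α (i + 1) : ℝ) / α i ≤ B
    rw [div_le_iff₀ (hposR i), hB]
    exact_mod_cast h1 i
  have hup : ∀ n i, i ≤ n → (α i : ℝ) ≤ α 0 * ρ n ^ i := by
    intro n i
    induction i with
    | zero => intro _; simp
    | succ i ih =>
      intro hi
      rw [hρs i, pow_succ]
      calc ρ i * α i ≤ ρ n * (α 0 * ρ n ^ i) :=
            mul_le_mul (hρmono (by omega)) (ih (by omega)) (hposR i).le (hρpos n).le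
        _ = _ := by ring
  have hdown : ∀ n j, (α n : ℝ) * ρ n ^ j ≤ α (n + j) := by
    intro n j
    induction j with
    | zero => simp
    | succ j ih =>
      rw [← add_assoc, hρs (n + j), pow_succ]
      calc (α n : ℝ) * (ρ n ^ j * ρ n) = ρ n * ((α n : ℝ) * ρ n ^ j) := by ring
        _ ≤ ρ (n + j) * α (n + j) :=
            mul_le_mul (hρmono (by omega)) ih
              (mul_nonneg (hposR n).le (pow_nonneg (hρpos n).le _)) (hρpos _).le
  refine ⟨1 / (128 * (m + 1) * (K + 1)), by positivity, ?_⟩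
  intro n hn k hk
  set c : ℝ := 1 / (128 * (m + 1) * (K + 1)) with hc
  set x : ℝ := Real.log n with hx
  have hn2 : (2 : ℝ) ≤ n := by exact_mod_cast hn
  have hn0 : (0 : ℝ) < n := by linarith
  have hx0 : 0 < x := Real.log_pos (by linarith)
  have hxl : Real.log 2 ≤ x := Real.log_le_log (by norm_num) hn2
  set q : ℝ := ρ n / B with hq
  have hq0 : 0 < q := div_pos (hρpos n) hB0
  have hq1 : q ≤ 1 := by rw [hq, div_le_one hB0]; exact hρle n
  -- lower bound for `q`
  have hq2 : 1 - K * x / n ≤ q := by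
    have e1 : B ^ n ≤ ((n : ℝ) + 1) ^ (b ^ 2) * α n := by
      have e0 : ((b ^ (2 * n) : ℕ) : ℝ) ≤ (((n + 1) ^ (b ^ 2) * α n : ℕ) : ℝ) := by
        exact_mod_cast h3 n
      push_cast at e0
      rw [pow_mul] at e0
      exact e0
    have e2 : 1 ≤ ((n : ℝ) + 1) ^ (b ^ 2) * α 0 * q ^ n := by
      have e3 : B ^ n ≤ (((n : ℝ) + 1) ^ (b ^ 2) * α 0 * q ^ n) * B ^ n := by
        calc B ^ n ≤ ((n : ℝ) + 1) ^ (b ^ 2) * α n := e1
          _ ≤ ((n : ℝ) + 1) ^ (b ^ 2) * (α 0 * ρ n ^ n) :=
              mul_le_mul_of_nonneg_left (hup n n le_rfl) (by positivity)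
          _ = _ := by
              have e7 : ρ n ^ n = q ^ n * B ^ n := by
                rw [← mul_pow, hq, div_mul_cancel₀ _ hB0.ne']
              rw [e7]; ring
      have e4 : 0 < B ^ n := by positivity
      nlinarith
    have e5 : 0 ≤ B * Real.log ((n : ℝ) + 1) + Real.log (α 0) + n * Real.log q := by
      have e6 := Real.log_nonneg e2
      have e61 : ((n : ℝ) + 1) ^ (b ^ 2) ≠ 0 := by positivity
      rw [Real.log_mul (mul_ne_zero e61 (hposR 0).ne') (pow_pos hq0 n).ne',
        Real.log_mul e61 (hposR 0).ne', Real.log_pow, Real.log_pow] at e6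
      rw [hB]
      push_cast at e6
      exact e6
    have e7 : Real.log ((n : ℝ) + 1) ≤ 2 * x := by
      have e8 : Real.log ((n : ℝ) + 1) ≤ Real.log ((n : ℝ) ^ 2) :=
        Real.log_le_log (by positivity) (by nlinarith)
      rw [Real.log_pow] at e8
      exact_mod_cast e8
    have e9 : Real.log (α 0) ≤ Real.log (α 0) / Real.log 2 * x := by
      rw [div_mul_eq_mul_div, le_div_iff₀ hl2]
      exact mul_le_mul_of_nonneg_left hxl hla
    have e10 : -(K * x) ≤ n * Real.log q := by
      have e11 : B * Real.log ((n : ℝ) + 1) ≤ B * (2 * x) := mul_le_mul_of_nonneg_left e7 hB0.le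
      rw [hK]
      nlinarith
    have e12 : -(K * x / n) ≤ Real.log q := by
      have e13 : -Real.log q ≤ K * x / n := by
        rw [le_div_iff₀ hn0]
        linarith
      linarith
    calc 1 - K * x / n = -(K * x / n) + 1 := by ring
      _ ≤ Real.log q + 1 := by linarith
      _ ≤ Real.exp (Real.log q) := Real.add_one_le_exp _
      _ = q := Real.exp_log hq0
  -- Bernoulli
  set j : ℕ := m * k with hj
  have hbern : 1 - j * (K * x / n) ≤ q ^ j := by
    have e1 := one_add_mul_le_pow (a := q - 1) (by linarith) j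
    have e2 : (j : ℝ) * (1 - q) ≤ j * (K * x / n) :=
      mul_le_mul_of_nonneg_left (by linarith) (Nat.cast_nonneg j)
    have e3 : 1 + (q - 1) = q := by ring
    rw [e3] at e1
    linarith
  -- size of the exponent
  have hjx : (j : ℝ) ≤ x / (128 * (K + 1)) := by
    have e1 : (j : ℝ) = m * k := by rw [hj]; push_cast; ring
    have e2 : (m : ℝ) * k ≤ m * (c * x) := mul_le_mul_of_nonneg_left hk (Nat.cast_nonneg m)
    have e3 : (m : ℝ) * (c * x) ≤ x / (128 * (K + 1)) := by
      rw [hc, le_div_iff₀ (by positivity)]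
      have e4 : (m : ℝ) * (1 / (128 * (m + 1) * (K + 1)) * x) * (128 * (K + 1)) =
          (m / (m + 1)) * x := by field_simp
      rw [e4]
      have e5 : (m : ℝ) / (m + 1) ≤ 1 := by
        rw [div_le_one (by positivity)]; linarith
      calc (m : ℝ) / (m + 1) * x ≤ 1 * x := mul_le_mul_of_nonneg_right e5 hx0.le
        _ = x := one_mul x
    rw [e1]
    exact e2.trans e3
  have hjK : (j : ℝ) * K ≤ x / 128 := by
    calc (j : ℝ) * K ≤ x / (128 * (K + 1)) * K := mul_le_mul_of_nonneg_right hjx hK0.le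
      _ = x / 128 * (K / (K + 1)) := by field_simp
      _ ≤ x / 128 * 1 := by
          apply mul_le_mul_of_nonneg_left _ (by positivity)
          rw [div_le_one (by positivity)]; linarith
      _ = _ := mul_one _
  have hBj : B ^ j ≤ Real.exp (x / 128) := by
    rw [← Real.exp_log hB0, ← Real.exp_nat_mul]
    apply Real.exp_le_exp.2
    calc (j : ℝ) * Real.log B ≤ j * K := mul_le_mul_of_nonneg_left hBK (Nat.cast_nonneg j)
      _ ≤ _ := hjK
  have hnx : (n : ℝ) = Real.exp x := (Real.exp_log hn0).symm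
  have hsmall : 2 * B ^ j * (j * (K * x / n)) ≤ 1 := by
    have e1 : 2 * B ^ j * (j * (K * x / n)) ≤ 2 * Real.exp (x / 128) * ((x / 128) * x / n) := by
      have e2 : (j : ℝ) * (K * x / n) = (j * K) * x / n := by ring
      rw [e2]
      apply mul_le_mul
      · linarith
      · apply div_le_div_of_nonneg_right _ hn0.le
        exact mul_le_mul_of_nonneg_right hjK hx0.le
      · positivity
      · positivity
    refine e1.trans ?_
    rw [hnx]
    have e3 : 2 * Real.exp (x / 128) * (x / 128 * x / Real.exp x) =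
        (x ^ 2 / 64) * Real.exp (-(127 * x / 128)) := by
      have e4 : Real.exp (-(127 * x / 128)) = Real.exp (x / 128) / Real.exp x := by
        rw [← Real.exp_sub]; congr 1; ring
      rw [e4]; field_simp; ring
    rw [e3, Real.exp_neg, ← div_eq_mul_inv, div_le_one (Real.exp_pos _)]
    have e5 := Real.quadratic_le_exp_of_nonneg (x := 127 * x / 128) (by positivity)
    nlinarith
  -- conclusion
  have hfin : 2 * B ^ j * (α n : ℝ) ≤ 2 * α (n + j) + α n := by
    have e1 : (α n : ℝ) * (B ^ j * q ^ j) ≤ α (n + j) := by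
      have e2 := hdown n j
      have e3 : B ^ j * q ^ j = ρ n ^ j := by
        rw [← mul_pow, hq, mul_div_cancel₀ _ hB0.ne']
      rw [e3]; exact e2
    have hBj0 : 0 < B ^ j := by positivity
    have e4 : (α n : ℝ) * (B ^ j * (1 - j * (K * x / n))) ≤ (α n : ℝ) * (B ^ j * q ^ j) :=
      mul_le_mul_of_nonneg_left (mul_le_mul_of_nonneg_left hbern hBj0.le) (hposR n).le
    have e5 : (α n : ℝ) * (2 * B ^ j * (j * (K * x / n))) ≤ α n * 1 :=
      mul_le_mul_of_nonneg_left hsmall (hposR n).le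
    nlinarith
  have hcast : ((2 * b ^ (2 * j) * α n : ℕ) : ℝ) ≤ ((2 * α (n + j) + α n : ℕ) : ℝ) := by
    push_cast
    rw [pow_mul]
    exact hfin
  exact_mod_cast hcast

end Pool.Agent.N118.ZL
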